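import Mathlib
import Pool.Agent.H194.CG.Final
import Pool.Agent.H194.CG.C0
import Pool.Agent.H194.CG.C1
import Pool.Agent.H194.CG.C2
import Pool.Agent.H194.CG.C3
import Pool.Agent.H194.CG.C4
import Pool.Agent.H194.CG.C5
import Pool.Agent.H194.CG.C6
import Pool.Agent.H194.CG.C7

/-!
A treeable countable Borel equivalence relation with an invariant probability measure and a Borel
graphing of it which contains no measurable treeing.
-/

set_option autoImplicit false
open MeasureTheory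
open scoped ENNReal

namespace Pool.Agent.Results.MP_cc4ad1_lc.NoTreeingInside

/-- `E` is a countable Borel equivalence relation. -/
def IsCBER {X : Type} [MeasurableSpace X] (E : Set (X × X)) : Prop :=
  MeasurableSet E ∧ (∀ x, (x, x) ∈ E) ∧ (∀ x y, (x, y) ∈ E → (y, x) ∈ E) ∧
    (∀ x y z, (x, y) ∈ E → (y, z) ∈ E → (x, z) ∈ E) ∧ ∀ x, {y | (x, y) ∈ E}.Countable

/-- `G` is a Borel graph: a symmetric irreflexive Borel set of pairs. -/
def IsBorelGraph {X : Type} [MeasurableSpace X] (G : Set (X × X)) : Prop :=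
  MeasurableSet G ∧ (∀ x y, (x, y) ∈ G → (y, x) ∈ G) ∧ ∀ x, (x, x) ∉ G

/-- The connected components of the graph `G`, a graph on the points of `Y`, are exactly the
`E`-classes on `Y`. -/
def GeneratesOn {X : Type} (Y : Set X) (G E : Set (X × X)) : Prop :=
  ∀ x ∈ Y, ∀ y ∈ Y, Relation.ReflTransGen (fun a b => (a, b) ∈ G) x y ↔ (x, y) ∈ E

/-- The graph `G` has no cycles. -/
def Acyclic {X : Type} (G : Set (X × X)) : Prop :=
  (SimpleGraph.fromRel (fun x y => (x, y) ∈ G)).IsAcyclic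

/-- `G` is a graphing of `E`. -/
def IsGraphing {X : Type} [MeasurableSpace X] (G E : Set (X × X)) : Prop :=
  IsBorelGraph G ∧ GeneratesOn Set.univ G E

/-- `T` is a treeing of `E`. -/
def IsTreeing {X : Type} [MeasurableSpace X] (T E : Set (X × X)) : Prop :=
  IsGraphing T E ∧ Acyclic T

/-- `T` is a `μ`-measurable treeing of `E`: for some Borel conull `E`-invariant set `Y` the
restriction of `T` to `Y` is Borel and is a treeing of the restriction of `E` to `Y`. -/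
def IsMeasurableTreeing {X : Type} [MeasurableSpace X] (μ : Measure X) (T E : Set (X × X)) : Prop :=
  ∃ Y : Set X, MeasurableSet Y ∧ μ Yᶜ = 0 ∧ (∀ x y, (x, y) ∈ E → x ∈ Y → y ∈ Y) ∧
    IsBorelGraph (T ∩ Y ×ˢ Y) ∧ GeneratesOn Y (T ∩ Y ×ˢ Y) E ∧ Acyclic (T ∩ Y ×ˢ Y)

open Pool.Agent.H194.CG in
theorem no_treeing (T : Set (X × X)) (hTG : T ⊆ Cay (SG 10800)) :
    ¬ IsMeasurableTreeing mu T EE := by
  rintro ⟨Y, hYm, hY0, hYE, ⟨hTm, hTs, _⟩, hgen, hac⟩
  have hsub : T ∩ Y ×ˢ Y ⊆ Cay (SG 10800) := Set.inter_subset_left.trans hTG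
  have hae : ∀ᵐ x ∂mu, ∀ g : Gam,
      Relation.ReflTransGen (fun a b => (a, b) ∈ T ∩ Y ×ˢ Y) x (act g x) := by
    have hfr : ∀ᵐ x ∂mu, x ∈ Fr := by rw [ae_iff]; exact thm_frN
    have hY : ∀ᵐ x ∂mu, x ∈ Y := by rw [ae_iff]; exact hY0
    filter_upwards [hfr, hY] with x hx hxY g
    have hE : (x, act g x) ∈ EE := Or.inr ⟨hx, g, rfl⟩
    exact (hgen x hxY _ (hYE _ _ hE hxY)).2 hE
  have h1 := low_holds 10800 le_rfl _ hsub hTm hTs hae
  have h2 := thm_treeT (thm_mass thm_mp (thm_KG thm_last) (thm_TG thm_bridge) thm_cutM thm_bridge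
    thm_frM thm_frI thm_frN thm_last) 10800 (by norm_num) _ hsub hTm hTs hae hac
  have h3 : (32 : ℝ≥0∞) / 5 ≤ 6 := h1.trans h2
  rw [ENNReal.div_le_iff (by norm_num) (by norm_num)] at h3
  norm_num at h3

open Pool.Agent.H194.CG in
theorem cay_irrefl (S : Set Gam) (hS : (1 : Gam) ∉ S) (x : X) : (x, x) ∉ Cay S := by
  rintro ⟨hx, s, hs, h⟩
  have h' : act s x = x := by
    rcases h with h | h
    · exact h.symm
    · exact h.symm
  exact hS (hx s h' ▸ hs)

open Pool.Agent.H194.CG in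
theorem one_notMem_SG : (1 : Gam) ∉ SG 10800 := by
  have e1 : ∀ j, R7.E j 1 = 0 := fun j => by simp [R7.E]
  have he : (0 : ℤ) < ee 10800 := by
    have : 0 < ee 10800 := by simp only [ee]; positivity
    exact_mod_cast this
  rintro (h | ⟨i, h | h⟩)
  · have := congrArg (R7.E 0) h
    rw [e1, R7.E_ga] at this
    simp at this
  · have := congrArg (R7.E 0) h
    rw [e1, R7.E_cc0] at this
    omega
  · have := congrArg (R7.E 0) h
    rw [e1, R7.E_dd0] at this
    omega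

open Pool.Agent.H194.CG in
theorem one_notMem_SK : (1 : Gam) ∉ SK := by
  rintro (h | ⟨i, h⟩)
  · exact FreeGroup.of_ne_one _ h.symm
  · exact FreeGroup.of_ne_one _ h.symm

open Pool.Agent.H194.CG in
theorem result : ∃ (X : Type) (_ : TopologicalSpace X) (_ : PolishSpace X) (_ : MeasurableSpace X)
    (_ : BorelSpace X) (μ : Measure X) (_ : IsProbabilityMeasure μ) (E G K : Set (X × X)),
    IsCBER E ∧
    (∀ φ : MeasurableEquiv X X, (∀ x, (x, φ x) ∈ E) → Measure.map φ μ = μ) ∧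
    IsTreeing K E ∧
    IsGraphing G E ∧
    (∀ T ⊆ G, ¬ IsTreeing T E) ∧
    (∀ T ⊆ G, ¬ IsMeasurableTreeing μ T E) := by
  haveI : PolishSpace Bool := inferInstance
  haveI hP : PolishSpace (Gam → Bool) := inferInstance
  haveI hB : BorelSpace (Gam → Bool) := inferInstance
  have hcay := thm_cay thm_frM thm_frI
  obtain ⟨hgG, hgK⟩ := thm_gen
  obtain ⟨hGm, hGs, hGg⟩ := hcay (SG 10800)
  obtain ⟨hKm, hKs, hKg⟩ := hcay SK
  refine ⟨Gam → Bool, inferInstance, hP, inferInstance, hB, mu, inferInstance, EE,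
    Cay (SG 10800), Cay SK, thm_E thm_frM thm_frI, thm_pmp thm_mp thm_frM thm_frI, ?_, ?_, ?_, ?_⟩
  · exact ⟨⟨⟨hKm, hKs, cay_irrefl _ one_notMem_SK⟩, fun x _ y _ => hKg hgK x y⟩,
      thm_acyK thm_last thm_frI⟩
  · exact ⟨⟨hGm, hGs, cay_irrefl _ one_notMem_SG⟩, fun x _ y _ => hGg (hgG _) x y⟩
  · rintro T hT ⟨⟨hTb, hTg⟩, hTa⟩
    refine no_treeing T hT ⟨Set.univ, MeasurableSet.univ, by simp, fun _ _ _ _ => trivial, ?_⟩
    rw [Set.univ_prod_univ, Set.inter_univ]
    exact ⟨hTb, hTg, hTa⟩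
  · exact fun T hT => no_treeing T hT

end Pool.Agent.Results.MP_cc4ad1_lc.NoTreeingInside
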